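import Mathlib
import Pool.Agent.Helper17.R8.Sheet

/-! # Row PT of `Pool.Helper17.R8` (MP_798d7d_nt) -/

set_option autoImplicit false

namespace Pool.Helper17.R8

theorem pt_aff (a b c d e0 A B ξ y η w x : ℚ)
    (hA : 48 * A = -(12 * a * e0 - 3 * b * d + c ^ 2))
    (hB : 1728 * B = -(72 * a * c * e0 + 9 * b * c * d - 27 * a * d ^ 2 - 27 * e0 * b ^ 2 -
      2 * c ^ 3))
    (hy : y ^ 2 = a * ξ ^ 4 + b * ξ ^ 3 + c * ξ ^ 2 + d * ξ + e0)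
    (hw : w ^ 2 = a * η ^ 4 + b * η ^ 3 + c * η ^ 2 + d * η + e0)
    (hx : 3 * (ξ - η) ^ 2 * x = 6 * a * ξ ^ 2 * η ^ 2 + 3 * b * ξ * η * (ξ + η) +
      c * (ξ ^ 2 + 4 * ξ * η + η ^ 2) + 3 * d * (ξ + η) + 6 * e0 + 6 * y * w) :
    (y * (2 * a * η ^ 2 + b * η + c / 3 - x) + w * (2 * a * ξ ^ 2 + b * ξ + c / 3 - x)) ^ 2 =
      (ξ - η) ^ 2 * (x ^ 3 + 16 * A * x + 64 * B) := by
  linear_combination ((2 * a * η ^ 2 + b * η + c / 3 - x) ^ 2 -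
      4 * a * (a * η ^ 4 + b * η ^ 3 + c * η ^ 2 + d * η + e0)) * hy +
    ((2 * a * ξ ^ 2 + b * ξ + c / 3 - x) ^ 2 - 4 * a * y ^ 2) * hw +
    (-(2 * a * η ^ 2 + b * η + c / 3 - x) * (2 * a * ξ ^ 2 + b * ξ + c / 3 - x) / 3 -
      a / 3 * ((ξ - η) ^ 2 * x - (6 * a * ξ ^ 2 * η ^ 2 + 3 * b * ξ * η * (ξ + η) +
      c * (ξ ^ 2 + 4 * ξ * η + η ^ 2) + 3 * d * (ξ + η) + 6 * e0) / 3 + 2 * y * w)) * hx -
    (ξ - η) ^ 2 * x / 3 * hA - (ξ - η) ^ 2 / 27 * hB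

theorem st_PT : ST_PT := by
  intro e t A B ξ y η ζ w hA hB hy hw hζ hD
  have hD' : ξ - η / ζ ≠ 0 := by
    intro h
    apply hD
    field_simp at h
    linarith
  have hw' : (w / ζ ^ 2) ^ 2 = q4 e t * (η / ζ) ^ 4 + q3 e t * (η / ζ) ^ 3 + q2 e t * (η / ζ) ^ 2 +
      q1 e t * (η / ζ) + q0 e t := by
    field_simp
    rw [hw]
    ring
  set x : ℚ := (6 * q4 e t * ξ ^ 2 * (η / ζ) ^ 2 + 3 * q3 e t * ξ * (η / ζ) * (ξ + η / ζ) +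
    q2 e t * (ξ ^ 2 + 4 * ξ * (η / ζ) + (η / ζ) ^ 2) + 3 * q1 e t * (ξ + η / ζ) + 6 * q0 e t +
    6 * y * (w / ζ ^ 2)) / (3 * (ξ - η / ζ) ^ 2) with hxdef
  have hx : 3 * (ξ - η / ζ) ^ 2 * x = 6 * q4 e t * ξ ^ 2 * (η / ζ) ^ 2 +
      3 * q3 e t * ξ * (η / ζ) * (ξ + η / ζ) +
      q2 e t * (ξ ^ 2 + 4 * ξ * (η / ζ) + (η / ζ) ^ 2) + 3 * q1 e t * (ξ + η / ζ) + 6 * q0 e t +
      6 * y * (w / ζ ^ 2) := by
    rw [hxdef, mul_div_cancel₀]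
    exact mul_ne_zero three_ne_zero (pow_ne_zero 2 hD')
  have key := pt_aff (q4 e t) (q3 e t) (q2 e t) (q1 e t) (q0 e t) A B ξ y (η / ζ) (w / ζ ^ 2) x
    (by rw [hA, fI]) (by rw [hB, fJ]) hy hw' hx
  have hX : xX e t ξ y η ζ w / (12 * (ξ * ζ - η) ^ 2) = x / 4 := by
    have h1 : (ξ * ζ - η) = ζ * (ξ - η / ζ) := by field_simp
    have h2 : xX e t ξ y η ζ w = ζ ^ 2 * (3 * (ξ - η / ζ) ^ 2 * x) := by
      rw [hx, xX]; field_simp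
    rw [h1, h2]
    have h3 : (ξ - η / ζ) ^ 2 ≠ 0 := pow_ne_zero 2 hD'
    rw [mul_pow]
    generalize (ξ - η / ζ) ^ 2 = D at h3 ⊢
    field_simp
    ring
  rw [hX]
  refine ⟨(y * (2 * q4 e t * (η / ζ) ^ 2 + q3 e t * (η / ζ) + q2 e t / 3 - x) +
    w / ζ ^ 2 * (2 * q4 e t * ξ ^ 2 + q3 e t * ξ + q2 e t / 3 - x)) / (8 * (ξ - η / ζ)), ?_⟩
  rw [div_pow, key]
  have h3 : (ξ - η / ζ) ≠ 0 := hD'
  generalize (ξ - η / ζ) = D at h3 ⊢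
  field_simp
  ring

end Pool.Helper17.R8
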